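import Pool.Agent.Helper4.CDX.M_MAIN
import Pool.Agent.Helper51.CX.All

/-!
# MP_a41ee4_co : the circuit d-step conjecture is false

There are `ε > 0` and `N` such that for every `d ≥ N` there is a bounded `d`-dimensional polyhedron
`P = {z ∈ ℝ^d : A z ≥ b}` with rational `A`, `b`, given by `2 d` irredundant inequalities, with exactly `2 d` facets,
and two vertices `u`, `v` of `P` such that every circuit walk from `u` to `v` has more than `(1 + ε) d` steps.

Proof. (1) `StrongDStep` (its proof is repeated in `Pool.Agent.Helper4.CDX.M_TFAE`): over every ordered field, the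
circuit d-step bound, even for polytopes and asymptotically, implies `NearBound`: from every point `u` near a vertex
`v` of a polyhedron there is a walk to `v` of length at most the dimension, in which every step enters a facet through
`v` that is never left. (2) `NearBound` is false for an explicit system of `74` inequalities in dimension `6`
(`Pool.Agent.Helper51.CX`). Idea: two far coordinates encode a vertex `V` of a small cube `[-1,1]^3`, and the walk is
forced to the vertex `V` of that cube over a face on which every facet through `v` is (nearly) `{V . z = 0}`; but no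
circuit chord of the cube starting at `V` reaches `V . z ≤ 0`.
-/

set_option autoImplicit false

open Module

namespace Pool.Agent.Results.MP_a41ee4_co.CircuitDStepFalse

variable {d f : ℕ}

/-- The polyhedron `{z ∈ ℝ^d : A z ≥ b}` with rational data. -/
def Poly (A : Matrix (Fin f) (Fin d) ℚ) (b : Fin f → ℚ) : Set (Fin d → ℝ) :=
  {z | ∀ k, (b k : ℝ) ≤ ∑ i, (A k i : ℝ) * z i}

/-- The support of `A x`. -/
def supp (A : Matrix (Fin f) (Fin d) ℚ) (x : Fin d → ℝ) : Set (Fin f) :=
  {k | ∑ i, (A k i : ℝ) * x i ≠ 0}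

/-- `g` is (a nonzero real multiple of) a circuit of `A`: it is not zero and the support of `A g` is minimal among the
supports of `A x`, `x ≠ 0`. -/
def IsCircuit (A : Matrix (Fin f) (Fin d) ℚ) (g : Fin d → ℝ) : Prop :=
  g ≠ 0 ∧ ∀ x : Fin d → ℝ, x ≠ 0 → supp A x ⊆ supp A g → supp A x = supp A g

/-- A circuit walk of length `n` from `u` to `v`: every step goes along a circuit and has maximal feasible length. -/
def CircuitWalk (A : Matrix (Fin f) (Fin d) ℚ) (b : Fin f → ℚ) (n : ℕ) (u v : Fin d → ℝ) : Prop :=
  ∃ y : ℕ → Fin d → ℝ, y 0 = u ∧ y n = v ∧ (∀ i ≤ n, y i ∈ Poly A b) ∧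
    ∀ i < n, ∃ (g : Fin d → ℝ) (α : ℝ), IsCircuit A g ∧ 0 < α ∧ y (i + 1) = y i + α • g ∧
      ∀ β, α < β → y i + β • g ∉ Poly A b

/-- The inequality number `k` cannot be dropped. -/
def Irredundant (A : Matrix (Fin f) (Fin d) ℚ) (b : Fin f → ℚ) (k : Fin f) : Prop :=
  ∃ z, z ∉ Poly A b ∧ ∀ l, l ≠ k → (b l : ℝ) ≤ ∑ i, (A l i : ℝ) * z i

/-- The dimension of a set. -/
noncomputable def dim (P : Set (Fin d → ℝ)) : ℕ := finrank ℝ (vectorSpan ℝ P)

/-- The facets of `P ⊆ ℝ^d`: the nonempty exposed faces of dimension `d - 1`. -/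
def Facets (P : Set (Fin d → ℝ)) : Set (Set (Fin d → ℝ)) :=
  {F | IsExposed ℝ P F ∧ F.Nonempty ∧ dim F + 1 = d}

/-- The circuit d-step conjecture fails, for polytopes and asymptotically: for all large `d` there is a rational
`d`-dimensional polytope with exactly `2 d` facets and two vertices at circuit distance more than `(1 + ε) d`. -/
theorem result :
    ∃ (ε : ℝ) (N : ℕ), 0 < ε ∧ ∀ d ≥ N, ∃ (A : Matrix (Fin (2 * d)) (Fin d) ℚ) (b : Fin (2 * d) → ℚ),
      Bornology.IsBounded (Poly A b) ∧ dim (Poly A b) = d ∧ (∀ k, Irredundant A b k) ∧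
      (Facets (Poly A b)).ncard = 2 * d ∧
      ∃ u ∈ (Poly A b).extremePoints ℝ, ∃ v ∈ (Poly A b).extremePoints ℝ,
        ∀ n, CircuitWalk A b n u v → (1 + ε) * (d : ℝ) < n :=
  Pool.Agent.Helper4.CDX.final (Pool.Agent.Helper51.CX.notNear ℚ)

end Pool.Agent.Results.MP_a41ee4_co.CircuitDStepFalse
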