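import Pool.Agent.Helper37.CircuitNet.Core

/-!
The circuit Hirsch bound `f - d` for all dual network flow polyhedra.
-/

set_option autoImplicit false

open Matrix Module

namespace Pool.Agent.Results.MP_a41ee4_co.NetworkHirsch

section

variable {ι κ₁ κ₂ : Type} [Fintype ι]

/-- The polyhedron `{z | A₁ z = b₁, A₂ z ≥ b₂}`. -/
def Poly (A₁ : Matrix κ₁ ι ℝ) (b₁ : κ₁ → ℝ) (A₂ : Matrix κ₂ ι ℝ) (b₂ : κ₂ → ℝ) : Set (ι → ℝ) :=
  {z | A₁ *ᵥ z = b₁ ∧ ∀ r, b₂ r ≤ (A₂ *ᵥ z) r}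

/-- `g` is (a nonzero real multiple of) a circuit of `(A₁, A₂)`: it lies in the kernel of `A₁`, is
not zero, and the support of `A₂ g` is minimal among the supports of `A₂ x`, `x ∈ ker A₁`,
`x ≠ 0`. -/
def IsCircuit (A₁ : Matrix κ₁ ι ℝ) (A₂ : Matrix κ₂ ι ℝ) (g : ι → ℝ) : Prop :=
  A₁ *ᵥ g = 0 ∧ g ≠ 0 ∧ ∀ x : ι → ℝ, A₁ *ᵥ x = 0 → x ≠ 0 →
    Function.support (A₂ *ᵥ x) ⊆ Function.support (A₂ *ᵥ g) →
      Function.support (A₂ *ᵥ x) = Function.support (A₂ *ᵥ g)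

/-- A circuit walk of length `k` from `u` to `v`: every step goes along a circuit and has maximal
feasible length. -/
def CircuitWalk (A₁ : Matrix κ₁ ι ℝ) (b₁ : κ₁ → ℝ) (A₂ : Matrix κ₂ ι ℝ) (b₂ : κ₂ → ℝ) (k : ℕ)
    (u v : ι → ℝ) : Prop :=
  ∃ y : ℕ → ι → ℝ, y 0 = u ∧ y k = v ∧ (∀ i ≤ k, y i ∈ Poly A₁ b₁ A₂ b₂) ∧
    ∀ i < k, ∃ (g : ι → ℝ) (α : ℝ), IsCircuit A₁ A₂ g ∧ 0 < α ∧ y (i + 1) = y i + α • g ∧
      ∀ β, α < β → y i + β • g ∉ Poly A₁ b₁ A₂ b₂

/-- The potential of a node: the coordinates of `x`, and `0` at the extra node `none`. -/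
def pot (x : ι → ℝ) : Option ι → ℝ
  | none => 0
  | some i => x i

/-- After the linear change of variables `T`, the row `ρ` is a positive multiple of a difference of
two potentials, i.e. of `e_b - e_a`, `e_b` or `-e_a`. -/
def IsNetworkRow (T : (ι → ℝ) ≃ₗ[ℝ] (ι → ℝ)) (ρ : ι → ℝ) : Prop :=
  ∃ (t : ℝ) (a b : Option ι), 0 < t ∧ ∀ z : ι → ℝ, ρ ⬝ᵥ z = t * (pot (T z) b - pot (T z) a)

end

section aux

open Pool.Agent.Helper37.CircuitNet Relation

variable {ι κ₁ κ₂ : Type} [Fintype ι] {A₁ : Matrix κ₁ ι ℝ} {b₁ : κ₁ → ℝ} {A₂ : Matrix κ₂ ι ℝ}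
  {b₂ : κ₂ → ℝ}

/-- Directions that keep all tight rows at a vertex are zero. -/
theorem ext_dir [Finite κ₂] {v : ι → ℝ} (hv : v ∈ (Poly A₁ b₁ A₂ b₂).extremePoints ℝ) {x : ι → ℝ}
    (h1 : A₁ *ᵥ x = 0) (h2 : ∀ r, (A₂ *ᵥ v) r = b₂ r → (A₂ *ᵥ x) r = 0) : x = 0 := by
  classical
  obtain ⟨hvP, hext⟩ := mem_extremePoints.mp hv
  set f : κ₂ → ℝ := fun r => if (A₂ *ᵥ v) r = b₂ r then 1 else
    ((A₂ *ᵥ v) r - b₂ r) / (|(A₂ *ᵥ x) r| + 1) with hf
  have hfpos : ∀ r, 0 < f r := by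
    intro r
    by_cases h : (A₂ *ᵥ v) r = b₂ r
    · simp [hf, h]
    · have h3 : 0 < (A₂ *ᵥ v) r - b₂ r := by
        have := lt_of_le_of_ne (hvP.2 r) (Ne.symm h)
        linarith
      have h4 : 0 < |(A₂ *ᵥ x) r| + 1 := by positivity
      simp only [hf, h, if_false]
      exact div_pos h3 h4
  obtain ⟨ε, hε, hεf⟩ : ∃ ε : ℝ, 0 < ε ∧ ∀ r, ε ≤ f r := by
    rcases isEmpty_or_nonempty κ₂ with h | h
    · exact ⟨1, one_pos, fun r => (h.false r).elim⟩
    · obtain ⟨r0, hr0⟩ := Finite.exists_min f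
      exact ⟨f r0, hfpos r0, hr0⟩
  have hbd : ∀ r, ε * |(A₂ *ᵥ x) r| ≤ (A₂ *ᵥ v) r - b₂ r := by
    intro r
    by_cases h : (A₂ *ᵥ v) r = b₂ r
    · rw [h2 r h, h]; simp
    · have h3 : 0 < (A₂ *ᵥ v) r - b₂ r := by
        have := lt_of_le_of_ne (hvP.2 r) (Ne.symm h)
        linarith
      have h4 : 0 < |(A₂ *ᵥ x) r| + 1 := by positivity
      have h5 := hεf r
      simp only [hf, h, if_false] at h5
      rw [le_div_iff₀ h4] at h5
      nlinarith [abs_nonneg ((A₂ *ᵥ x) r)]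
  have hmem : ∀ σ : ℝ, |σ| ≤ ε → v + σ • x ∈ Poly A₁ b₁ A₂ b₂ := by
    intro σ hσ
    refine ⟨?_, fun r => ?_⟩
    · rw [mulVec_add, mulVec_smul, h1, smul_zero, add_zero]; exact hvP.1
    · rw [mulVec_add, mulVec_smul, Pi.add_apply, Pi.smul_apply, smul_eq_mul]
      have h6 : |σ * (A₂ *ᵥ x) r| ≤ ε * |(A₂ *ᵥ x) r| := by
        rw [abs_mul]; exact mul_le_mul_of_nonneg_right hσ (abs_nonneg _)
      have h7 := neg_abs_le (σ * (A₂ *ᵥ x) r)
      have h8 := hbd r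
      linarith
  have hA := hmem ε (by rw [abs_of_pos hε])
  have hB := hmem (-ε) (by rw [abs_neg, abs_of_pos hε])
  have hseg : v ∈ openSegment ℝ (v + ε • x) (v + (-ε) • x) := by
    refine ⟨1 / 2, 1 / 2, by norm_num, by norm_num, by norm_num, ?_⟩
    ext i
    simp only [Pi.add_apply, Pi.smul_apply, smul_eq_mul]
    ring
  have := (hext _ hA _ hB hseg).1
  have h9 : ε • x = 0 := by simpa using this
  rcases smul_eq_zero.mp h9 with h | h
  · exact absurd h hε.ne'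
  · exact h

theorem IsCircuit.neg {g : ι → ℝ} (h : IsCircuit A₁ A₂ g) : IsCircuit A₁ A₂ (-g) := by
  obtain ⟨h1, h2, h3⟩ := h
  have hsupp : Function.support (A₂ *ᵥ (-g)) = Function.support (A₂ *ᵥ g) := by
    rw [mulVec_neg]
    ext r
    simp
  refine ⟨by rw [mulVec_neg, h1, neg_zero], neg_ne_zero.mpr h2, fun x hx hx0 hs => ?_⟩
  rw [hsupp] at hs ⊢
  exact h3 x hx hx0 hs

theorem CircuitWalk.append {k : ℕ} {u v w : ι → ℝ} (h : CircuitWalk A₁ b₁ A₂ b₂ k u v)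
    (hw : w ∈ Poly A₁ b₁ A₂ b₂) {g : ι → ℝ} {α : ℝ} (hg : IsCircuit A₁ A₂ g) (hα : 0 < α)
    (hwv : w = v + α • g) (hmax : ∀ β, α < β → v + β • g ∉ Poly A₁ b₁ A₂ b₂) :
    CircuitWalk A₁ b₁ A₂ b₂ (k + 1) u w := by
  obtain ⟨y, h0, hk, hP, hstep⟩ := h
  refine ⟨fun i => if i ≤ k then y i else w, by simpa using h0, by simp, fun i _ => ?_,
    fun i hi => ?_⟩
  · by_cases h : i ≤ k
    · simpa [h] using hP i h
    · simpa [h] using hw
  · have hik : i ≤ k := Nat.lt_succ_iff.mp hi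
    rcases Nat.lt_or_ge i k with hlt | hge
    · obtain ⟨g', α', h1, h2, h3, h4⟩ := hstep i hlt
      refine ⟨g', α', h1, h2, ?_, ?_⟩
      · simpa [hik, Nat.succ_le_iff.mpr hlt] using h3
      · simpa [hik] using h4
    · obtain rfl : i = k := le_antisymm hik hge
      refine ⟨g, α, hg, hα, ?_, ?_⟩
      · simpa [hk] using hwv
      · simpa [hk] using hmax

variable {T : (ι → ℝ) ≃ₗ[ℝ] (ι → ℝ)} {u : ι → ℝ} {t₁ : κ₁ → ℝ} {p₁ q₁ : κ₁ → Option ι}
  {t₂ : κ₂ → ℝ} {p₂ q₂ : κ₂ → Option ι}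

/-- The point with given potentials relative to `u`. -/
def toZ (T : (ι → ℝ) ≃ₗ[ℝ] (ι → ℝ)) (u : ι → ℝ) (w : Option ι → ℝ) : ι → ℝ :=
  u + T.symm fun i => w (some i)

omit [Fintype ι] in
theorem pot_symm (w : Option ι → ℝ) (hw : w none = 0) (a : Option ι) :
    pot (T (T.symm fun i => w (some i))) a = w a := by
  rw [LinearEquiv.apply_symm_apply]
  cases a with
  | none => exact hw.symm
  | some i => rfl

/-- The arcs of the network: tails. -/
def src (q₂ : κ₂ → Option ι) (p₁ q₁ : κ₁ → Option ι) : κ₂ ⊕ (κ₁ ⊕ κ₁) → Option ι :=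
  Sum.elim q₂ (Sum.elim q₁ p₁)

/-- The arcs of the network: bounds. -/
noncomputable def bound (A₂ : Matrix κ₂ ι ℝ) (b₂ : κ₂ → ℝ) (t₂ : κ₂ → ℝ) (u : ι → ℝ) :
    κ₂ ⊕ (κ₁ ⊕ κ₁) → ℝ :=
  Sum.elim (fun r => ((A₂ *ᵥ u) r - b₂ r) / t₂ r) fun _ => 0

theorem mulVec_toZ {κ : Type} {A : Matrix κ ι ℝ} {t : κ → ℝ} {p q : κ → Option ι}
    (hA : ∀ r z, A r ⬝ᵥ z = t r * (pot (T z) (q r) - pot (T z) (p r))) (w : Option ι → ℝ)
    (hw : w none = 0) (r : κ) :
    (A *ᵥ toZ T u w) r = (A *ᵥ u) r + t r * (w (q r) - w (p r)) := by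
  rw [toZ, mulVec_add, Pi.add_apply]
  congr 1
  have := hA r (T.symm fun i => w (some i))
  rw [pot_symm w hw, pot_symm w hw] at this
  exact this

/-- Feasibility in the two pictures. -/
theorem toZ_mem_iff (ht₁ : ∀ r, 0 < t₁ r) (ht₂ : ∀ r, 0 < t₂ r)
    (hA₁ : ∀ r z, A₁ r ⬝ᵥ z = t₁ r * (pot (T z) (q₁ r) - pot (T z) (p₁ r)))
    (hA₂ : ∀ r z, A₂ r ⬝ᵥ z = t₂ r * (pot (T z) (q₂ r) - pot (T z) (p₂ r)))
    (hu : u ∈ Poly A₁ b₁ A₂ b₂) (w : Option ι → ℝ) (hw : w none = 0) :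
    toZ T u w ∈ Poly A₁ b₁ A₂ b₂ ↔
      Feas (src q₂ p₁ q₁) (src p₂ q₁ p₁) (bound A₂ b₂ t₂ u) w := by
  constructor
  · rintro ⟨h1, h2⟩ (r | r | r)
    · have h3 := h2 r
      rw [mulVec_toZ hA₂ w hw] at h3
      simp only [src, bound, Sum.elim_inl]
      rw [le_div_iff₀ (ht₂ r)]
      linarith
    · have h3 := congrFun h1 r
      rw [mulVec_toZ hA₁ w hw, hu.1] at h3
      have h4 : t₁ r * (w (q₁ r) - w (p₁ r)) = 0 := by linarith
      rcases mul_eq_zero.mp h4 with h | h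
      · exact absurd h (ht₁ r).ne'
      · simp only [src, bound, Sum.elim_inl, Sum.elim_inr]
        linarith
    · have h3 := congrFun h1 r
      rw [mulVec_toZ hA₁ w hw, hu.1] at h3
      have h4 : t₁ r * (w (q₁ r) - w (p₁ r)) = 0 := by linarith
      rcases mul_eq_zero.mp h4 with h | h
      · exact absurd h (ht₁ r).ne'
      · simp only [src, bound, Sum.elim_inr]
        linarith
  · intro hf
    refine ⟨funext fun r => ?_, fun r => ?_⟩
    · have h3 := hf (Sum.inr (Sum.inl r))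
      have h4 := hf (Sum.inr (Sum.inr r))
      simp only [src, bound, Sum.elim_inl, Sum.elim_inr] at h3 h4
      rw [mulVec_toZ hA₁ w hw, hu.1]
      have h5 : w (q₁ r) - w (p₁ r) = 0 := by linarith
      rw [h5, mul_zero, add_zero]
    · have h3 := hf (Sum.inl r)
      simp only [src, bound, Sum.elim_inl] at h3
      rw [le_div_iff₀ (ht₂ r)] at h3
      rw [mulVec_toZ hA₂ w hw]
      linarith

open Classical in
/-- The indicator potentials of a set of nodes. -/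
noncomputable def ind (K : Set (Option ι)) : Option ι → ℝ := fun a => if a ∈ K then 1 else 0

omit [Fintype ι] in
theorem ind_congr {K : Set (Option ι)} {x y : Option ι} (h : x ∈ K ↔ y ∈ K) :
    ind K x = ind K y := by
  by_cases hx : x ∈ K
  · have hy := h.1 hx
    simp [ind, hx, hy]
  · have hy : y ∉ K := fun hy => hx (h.2 hy)
    simp [ind, hx, hy]

/-- Cuts with connected sides give circuits. -/
theorem isCircuit_cut (ht₁ : ∀ r, 0 < t₁ r) (ht₂ : ∀ r, 0 < t₂ r)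
    (hA₁ : ∀ r z, A₁ r ⬝ᵥ z = t₁ r * (pot (T z) (q₁ r) - pot (T z) (p₁ r)))
    (hA₂ : ∀ r z, A₂ r ⬝ᵥ z = t₂ r * (pot (T z) (q₂ r) - pot (T z) (p₂ r)))
    {K : Set (Option ι)} (hK0 : none ∉ K) (hKne : K.Nonempty)
    (hK : ConnOn (src q₂ p₁ q₁) (src p₂ q₁ p₁) K)
    (hKc : ConnOn (src q₂ p₁ q₁) (src p₂ q₁ p₁) Kᶜ)
    (hker : A₁ *ᵥ (T.symm fun i => ind K (some i)) = 0) :
    IsCircuit A₁ A₂ (T.symm fun i => ind K (some i)) := by
  have hind0 : ind K (none : Option ι) = 0 := by simp [ind, hK0]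
  have hval : ∀ r, (A₂ *ᵥ (T.symm fun i => ind K (some i))) r
      = t₂ r * (ind K (q₂ r) - ind K (p₂ r)) := by
    intro r
    have := hA₂ r (T.symm fun i => ind K (some i))
    rw [pot_symm _ hind0, pot_symm _ hind0] at this
    exact this
  obtain ⟨k0, hk0⟩ := hKne
  refine ⟨hker, ?_, fun x hx hx0 hsub => ?_⟩
  · intro h0
    have h1 : ind K k0 = 0 := by
      rw [← pot_symm (T := T) _ hind0 k0, h0, map_zero]
      cases k0 <;> rfl
    simp [ind, hk0] at h1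
  · have hadj : ∀ a b, Adj (src q₂ p₁ q₁) (src p₂ q₁ p₁) a b → (a ∈ K ↔ b ∈ K) →
        pot (T x) a = pot (T x) b := by
      rintro a b ⟨r | r | r, h⟩ hab
      · have h1 : (A₂ *ᵥ x) r = 0 := by
          by_contra hne
          have h2 := hsub (Function.mem_support.mpr hne)
          rw [Function.mem_support, hval] at h2
          apply h2
          have h3 : (q₂ r ∈ K ↔ p₂ r ∈ K) := by
            rcases h with ⟨ha, hb⟩ | ⟨ha, hb⟩
            · simp only [src, Sum.elim_inl] at ha hb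
              rw [ha, hb]; exact hab
            · simp only [src, Sum.elim_inl] at ha hb
              rw [ha, hb]; exact hab.symm
          rw [ind_congr h3, sub_self, mul_zero]
        have h4 : t₂ r * (pot (T x) (q₂ r) - pot (T x) (p₂ r)) = 0 := by
          rw [← hA₂ r x]; exact h1
        rcases mul_eq_zero.mp h4 with h5 | h5
        · exact absurd h5 (ht₂ r).ne'
        · rcases h with ⟨ha, hb⟩ | ⟨ha, hb⟩ <;> simp only [src, Sum.elim_inl] at ha hb <;>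
            rw [← ha, ← hb] <;> linarith
      all_goals
        have h4 : t₁ r * (pot (T x) (q₁ r) - pot (T x) (p₁ r)) = 0 := by
          rw [← hA₁ r x]; exact congrFun hx r
        rcases mul_eq_zero.mp h4 with h5 | h5
        · exact absurd h5 (ht₁ r).ne'
        · rcases h with ⟨ha, hb⟩ | ⟨ha, hb⟩ <;>
            simp only [src, Sum.elim_inl, Sum.elim_inr] at ha hb <;>
            rw [← ha, ← hb] <;> linarith
    have hin : ∀ a ∈ K, pot (T x) a = pot (T x) k0 := by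
      intro a ha
      have h := hK k0 hk0 a ha
      induction h with
      | refl => rfl
      | @tail b d _ hbd ih =>
        rw [← ih hbd.2.1]
        exact (hadj b d hbd.1 ⟨fun _ => hbd.2.2, fun _ => hbd.2.1⟩).symm
    have hout : ∀ a, a ∉ K → pot (T x) a = 0 := by
      intro a ha
      have h := hKc none hK0 a ha
      induction h with
      | refl => rfl
      | @tail b d _ hbd ih =>
        rw [← ih hbd.2.1]
        exact (hadj b d hbd.1 ⟨fun h => absurd h hbd.2.1, fun h => absurd h hbd.2.2⟩).symm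
    set τ := pot (T x) k0 with hτ
    have hτ0 : τ ≠ 0 := by
      intro h0
      apply hx0
      have : T x = 0 := by
        funext i
        by_cases hi : some i ∈ K
        · exact (hin _ hi).trans h0
        · exact hout _ hi
      exact (LinearEquiv.map_eq_zero_iff T).mp this
    have hpot : ∀ a, pot (T x) a = τ * ind K a := by
      intro a
      by_cases ha : a ∈ K
      · rw [hin a ha]; simp [ind, ha]
      · rw [hout a ha]; simp [ind, ha]
    ext r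
    rw [Function.mem_support, Function.mem_support, hval]
    have h1 : (A₂ *ᵥ x) r = τ * (t₂ r * (ind K (q₂ r) - ind K (p₂ r))) := by
      have := hA₂ r x
      rw [hpot, hpot] at this
      have h2 : (A₂ *ᵥ x) r = t₂ r * (τ * ind K (q₂ r) - τ * ind K (p₂ r)) := this
      rw [h2]; ring
    rw [h1]
    constructor
    · intro h h2; exact h (by rw [h2, mul_zero])
    · exact fun h => mul_ne_zero hτ0 h

/-- Walks in the network give circuit walks. -/
theorem circuitWalk_of_walk (ht₁ : ∀ r, 0 < t₁ r) (ht₂ : ∀ r, 0 < t₂ r)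
    (hA₁ : ∀ r z, A₁ r ⬝ᵥ z = t₁ r * (pot (T z) (q₁ r) - pot (T z) (p₁ r)))
    (hA₂ : ∀ r z, A₂ r ⬝ᵥ z = t₂ r * (pot (T z) (q₂ r) - pot (T z) (p₂ r)))
    (hu : u ∈ Poly A₁ b₁ A₂ b₂) {k : ℕ} {w : Option ι → ℝ}
    (h : Walk (src q₂ p₁ q₁) (src p₂ q₁ p₁) (bound A₂ b₂ t₂ u) none k w) :
    CircuitWalk A₁ b₁ A₂ b₂ k u (toZ T u w) := by
  induction h with
  | zero =>
    have h0 : toZ T u (fun _ => 0) = u := by
      have : (T.symm fun _ : ι => (0 : ℝ)) = 0 := map_zero T.symm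
      rw [toZ, this, add_zero]
    rw [h0]
    exact ⟨fun _ => u, rfl, rfl, fun _ _ => hu, fun i hi => absurd hi (Nat.not_lt_zero i)⟩
  | @succ n w' w _ hf' hf hs' hs hstep ih =>
    have hwP := (toZ_mem_iff ht₁ ht₂ hA₁ hA₂ hu w hs).2 hf
    have hwP' := (toZ_mem_iff ht₁ ht₂ hA₁ hA₂ hu w' hs').2 hf'
    obtain ⟨K, hK0, hKne, hK, hKc, l, hl, hout, hcase⟩ := hstep
    have hind0 : ind K (none : Option ι) = 0 := by simp [ind, hK0]
    set g : ι → ℝ := T.symm fun i => ind K (some i) with hg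
    -- moving by a multiple of `g`
    have hmove : ∀ β : ℝ, toZ T u w' + β • g = toZ T u fun a => w' a + β * ind K a := by
      intro β
      rw [toZ, toZ, add_assoc]
      congr 1
      rw [hg, ← map_smul, ← map_add]
      congr 1
    have hmove0 : ∀ β : ℝ, w' none + β * ind K (none : Option ι) = 0 := by
      intro β; rw [hs', hind0]; ring
    rcases hcase with ⟨hin, e, -, he1, he2, he3⟩ | ⟨hin, e, -, he1, he2, he3⟩
    · have hw : w = fun a => w' a + l * ind K a := by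
        funext a
        by_cases ha : a ∈ K
        · rw [hin a ha]; simp [ind, ha]
        · rw [hout a ha]; simp [ind, ha]
      have hwz : toZ T u w = toZ T u w' + l • g := by rw [hmove, ← hw]
      have hker : A₁ *ᵥ g = 0 := by
        have h1 := hwP.1
        rw [hwz, mulVec_add, mulVec_smul, hwP'.1] at h1
        have h2 : l • (A₁ *ᵥ g) = 0 := by simpa using h1
        rcases smul_eq_zero.mp h2 with h | h
        · exact absurd h hl.ne'
        · exact h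
      refine ih.append hwP (isCircuit_cut ht₁ ht₂ hA₁ hA₂ hK0 hKne hK hKc hker) hl hwz ?_
      intro β hβ hmem
      rw [hmove, toZ_mem_iff ht₁ ht₂ hA₁ hA₂ hu _ (hmove0 β)] at hmem
      have h1 := hmem e
      rw [hw] at he3
      simp only [ind, he1, he2, if_true, if_false] at h1 he3
      linarith
    · have hw : w = fun a => w' a + (-l) * ind K a := by
        funext a
        by_cases ha : a ∈ K
        · rw [hin a ha]; simp [ind, ha]; ring
        · rw [hout a ha]; simp [ind, ha]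
      have hwz : toZ T u w = toZ T u w' + l • (-g) := by
        rw [smul_neg, ← neg_smul, hmove, ← hw]
      have hker : A₁ *ᵥ g = 0 := by
        have h1 := hwP.1
        rw [hwz, mulVec_add, mulVec_smul, mulVec_neg, hwP'.1] at h1
        have h2 : l • (-(A₁ *ᵥ g)) = 0 := by simpa using h1
        rcases smul_eq_zero.mp h2 with h | h
        · exact absurd h hl.ne'
        · exact neg_eq_zero.mp h
      refine ih.append hwP (isCircuit_cut ht₁ ht₂ hA₁ hA₂ hK0 hKne hK hKc hker).neg hl hwz ?_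
      intro β hβ hmem
      rw [smul_neg, ← neg_smul, hmove, toZ_mem_iff ht₁ ht₂ hA₁ hA₂ hu _ (hmove0 (-β))] at hmem
      have h1 := hmem e
      rw [hw] at he3
      simp only [ind, he1, he2, if_true, if_false] at h1 he3
      linarith

/-- Vertices are vertex-like in the network. -/
theorem conn_of_vertex [Finite κ₂] (ht₁ : ∀ r, 0 < t₁ r) (ht₂ : ∀ r, 0 < t₂ r)
    (hA₁ : ∀ r z, A₁ r ⬝ᵥ z = t₁ r * (pot (T z) (q₁ r) - pot (T z) (p₁ r)))
    (hA₂ : ∀ r z, A₂ r ⬝ᵥ z = t₂ r * (pot (T z) (q₂ r) - pot (T z) (p₂ r)))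
    (hu : u ∈ Poly A₁ b₁ A₂ b₂) {w : Option ι → ℝ} (hw : w none = 0)
    (hv : toZ T u w ∈ (Poly A₁ b₁ A₂ b₂).extremePoints ℝ) (a : Option ι) :
    ReflTransGen (QE (src q₂ p₁ q₁) (src p₂ q₁ p₁) (bound A₂ b₂ t₂ u) w) none a := by
  by_contra ha
  set K : Set (Option ι) := {b | ¬ ReflTransGen
    (QE (src q₂ p₁ q₁) (src p₂ q₁ p₁) (bound A₂ b₂ t₂ u) w) none b} with hK
  have hvP := (mem_extremePoints.mp hv).1
  have hK0 : (none : Option ι) ∉ K := fun h => h ReflTransGen.refl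
  have hind0 : ind K (none : Option ι) = 0 := by simp [ind, hK0]
  have hqe : ∀ x y, QE (src q₂ p₁ q₁) (src p₂ q₁ p₁) (bound A₂ b₂ t₂ u) w x y →
      ind K x = ind K y := by
    intro x y hxy
    exact ind_congr ⟨fun hx hy => hx (hy.tail hxy.symm), fun hy hx => hy (hx.tail hxy)⟩
  have h1 : A₁ *ᵥ (T.symm fun i => ind K (some i)) = 0 := by
    funext r
    have h2 := hA₁ r (T.symm fun i => ind K (some i))
    rw [pot_symm _ hind0, pot_symm _ hind0] at h2
    have h3 := congrFun hvP.1 r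
    rw [mulVec_toZ hA₁ w hw, hu.1] at h3
    have h4 : t₁ r * (w (q₁ r) - w (p₁ r)) = 0 := by linarith
    have h5 : w (q₁ r) = w (p₁ r) := by
      rcases mul_eq_zero.mp h4 with h | h
      · exact absurd h (ht₁ r).ne'
      · linarith
    have h6 := hqe (q₁ r) (p₁ r)
      (Or.inl ⟨⟨Sum.inr (Sum.inl r), Or.inl ⟨rfl, rfl⟩⟩, h5⟩)
    have h7 : (A₁ *ᵥ (T.symm fun i => ind K (some i))) r
        = t₁ r * (ind K (q₁ r) - ind K (p₁ r)) := h2
    rw [h7, h6, sub_self, mul_zero]; rfl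
  have h2 : ∀ r, (A₂ *ᵥ toZ T u w) r = b₂ r →
      (A₂ *ᵥ (T.symm fun i => ind K (some i))) r = 0 := by
    intro r hr
    have h2 := hA₂ r (T.symm fun i => ind K (some i))
    rw [pot_symm _ hind0, pot_symm _ hind0] at h2
    rw [mulVec_toZ hA₂ w hw] at hr
    have h6 := hqe (q₂ r) (p₂ r) (Or.inr ⟨Sum.inl r, by
      simp only [src, bound, Sum.elim_inl]
      rw [eq_div_iff (ht₂ r).ne']
      linarith, Or.inl ⟨rfl, rfl⟩⟩)
    have h7 : (A₂ *ᵥ (T.symm fun i => ind K (some i))) r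
        = t₂ r * (ind K (q₂ r) - ind K (p₂ r)) := h2
    rw [h7, h6, sub_self, mul_zero]
  have h3 := ext_dir hv h1 h2
  have h4 : ind K a = 0 := by
    rw [← pot_symm (T := T) _ hind0 a, h3, map_zero]
    cases a <;> rfl
  have ha' : a ∈ K := ha
  simp [ind, ha'] at h4

/-- From any point to any vertex: at most as many steps as there are slack inequalities. -/
theorem exists_walk_to_vertex [Fintype κ₁] [Fintype κ₂] (ht₁ : ∀ r, 0 < t₁ r)
    (ht₂ : ∀ r, 0 < t₂ r)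
    (hA₁ : ∀ r z, A₁ r ⬝ᵥ z = t₁ r * (pot (T z) (q₁ r) - pot (T z) (p₁ r)))
    (hA₂ : ∀ r z, A₂ r ⬝ᵥ z = t₂ r * (pot (T z) (q₂ r) - pot (T z) (p₂ r)))
    (hu : u ∈ Poly A₁ b₁ A₂ b₂) {v : ι → ℝ} (hv : v ∈ (Poly A₁ b₁ A₂ b₂).extremePoints ℝ) :
    ∃ k, k ≤ {r | b₂ r < (A₂ *ᵥ u) r}.ncard ∧ CircuitWalk A₁ b₁ A₂ b₂ k u v := by
  classical
  set w : Option ι → ℝ := pot (T (v - u)) with hw
  have hw0 : w none = 0 := rfl
  have hzv : toZ T u w = v := by
    have h1 : (fun i => w (some i)) = T (v - u) := rfl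
    rw [toZ, h1, LinearEquiv.symm_apply_apply]
    exact add_sub_cancel u v
  have hvP := (mem_extremePoints.mp hv).1
  have hf := (toZ_mem_iff ht₁ ht₂ hA₁ hA₂ hu w hw0).1 (by rw [hzv]; exact hvP)
  have hc : ∀ e, 0 ≤ bound (κ₁ := κ₁) A₂ b₂ t₂ u e := by
    rintro (r | r)
    · simp only [bound, Sum.elim_inl]
      exact div_nonneg (by have := hu.2 r; linarith) (ht₂ r).le
    · simp [bound]
  have hconn := conn_of_vertex ht₁ ht₂ hA₁ hA₂ hu hw0 (by rw [hzv]; exact hv)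
  obtain ⟨k, hk, hwalk⟩ := exists_walk hc _ w hf hw0 hconn le_rfl
  refine ⟨k, ?_, ?_⟩
  · refine (hk.trans (Phi_le w)).trans ?_
    rw [Set.ncard_eq_toFinset_card']
    have hsub : (Finset.univ.filter fun e : κ₂ ⊕ (κ₁ ⊕ κ₁) => 0 < bound A₂ b₂ t₂ u e) ⊆
        ({r | b₂ r < (A₂ *ᵥ u) r} : Set κ₂).toFinset.map ⟨Sum.inl, Sum.inl_injective⟩ := by
      rintro (r | r) hr
      · have hr' : 0 < ((A₂ *ᵥ u) r - b₂ r) / t₂ r := (Finset.mem_filter.mp hr).2
        refine Finset.mem_map.mpr ⟨r, ?_, rfl⟩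
        simp only [Set.mem_toFinset, Set.mem_ofPred_eq]
        have := (div_pos_iff_of_pos_right (ht₂ r)).mp hr'
        linarith
      · exact absurd (Finset.mem_filter.mp hr).2 (lt_irrefl (0 : ℝ))
    exact (Finset.card_le_card hsub).trans (Finset.card_map _).le
  · rw [← hzv]
    exact circuitWalk_of_walk ht₁ ht₂ hA₁ hA₂ hu hwalk

/-- At a vertex at least `dim P` inequalities are tight. -/
theorem finrank_le_tight [Fintype κ₂] (hu : u ∈ (Poly A₁ b₁ A₂ b₂).extremePoints ℝ) :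
    finrank ℝ (vectorSpan ℝ (Poly A₁ b₁ A₂ b₂)) + {r | b₂ r < (A₂ *ᵥ u) r}.ncard
      ≤ Fintype.card κ₂ := by
  classical
  have huP := (mem_extremePoints.mp hu).1
  have h1 : vectorSpan ℝ (Poly A₁ b₁ A₂ b₂) ≤ LinearMap.ker (Matrix.mulVecLin A₁) := by
    rw [vectorSpan, Submodule.span_le]
    rintro _ ⟨x, hx, y, hy, rfl⟩
    simp only [SetLike.mem_coe, LinearMap.mem_ker, Matrix.mulVecLin_apply, vsub_eq_sub,
      mulVec_sub]
    rw [hx.1, hy.1, sub_self]
  have h2 : finrank ℝ (vectorSpan ℝ (Poly A₁ b₁ A₂ b₂))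
      ≤ finrank ℝ (LinearMap.ker (Matrix.mulVecLin A₁)) := Submodule.finrank_mono h1
  let φ : LinearMap.ker (Matrix.mulVecLin A₁) →ₗ[ℝ] ({r // (A₂ *ᵥ u) r = b₂ r} → ℝ) :=
    LinearMap.pi fun r => (LinearMap.proj (r : κ₂)).comp
      ((Matrix.mulVecLin A₂).comp (Submodule.subtype _))
  have hφ : Function.Injective φ := by
    rw [← LinearMap.ker_eq_bot, LinearMap.ker_eq_bot']
    rintro ⟨x, hx⟩ h0
    have h3 : x = 0 := ext_dir hu hx fun r hr => congrFun h0 ⟨r, hr⟩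
    exact Subtype.ext h3
  have h3 := LinearMap.finrank_le_finrank_of_injective hφ
  rw [Module.finrank_fintype_fun_eq_card] at h3
  have h4 : Fintype.card {r // (A₂ *ᵥ u) r = b₂ r} + {r | b₂ r < (A₂ *ᵥ u) r}.ncard
      = Fintype.card κ₂ := by
    rw [Set.ncard_eq_toFinset_card', Fintype.card_subtype, ← Finset.card_univ,
      ← Finset.card_filter_add_card_filter_not (s := Finset.univ) (fun r => (A₂ *ᵥ u) r = b₂ r)]
    congr 2
    ext r
    simp only [Set.mem_toFinset, Set.mem_ofPred_eq, Finset.mem_filter, Finset.mem_univ, true_and]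
    exact ⟨fun h => h.ne', fun h => lt_of_le_of_ne (huP.2 r) (Ne.symm h)⟩
  omega

end aux

/-- Let `P = {z | A₁ z = b₁, A₂ z ≥ b₂}` be a polyhedron such that, after one linear change of
variables, all rows are positive multiples of `e_b - e_a`, `e_b` or `-e_a` (a dual network flow
polyhedron, bounded or not). Then every point `u` of `P` is joined to every vertex `v` by a circuit
walk whose length is at most the number of inequalities that are slack at `u`, and two vertices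
are joined by a circuit walk of length at most `f - d`, where `f` is the number of inequalities and
`d` the dimension of `P`. -/
theorem result {ι κ₁ κ₂ : Type} [Fintype ι] [Fintype κ₁] [Fintype κ₂] (A₁ : Matrix κ₁ ι ℝ)
    (b₁ : κ₁ → ℝ) (A₂ : Matrix κ₂ ι ℝ) (b₂ : κ₂ → ℝ) (T : (ι → ℝ) ≃ₗ[ℝ] (ι → ℝ))
    (h₁ : ∀ r, IsNetworkRow T (A₁ r)) (h₂ : ∀ r, IsNetworkRow T (A₂ r)) :
    (∀ u ∈ Poly A₁ b₁ A₂ b₂, ∀ v ∈ (Poly A₁ b₁ A₂ b₂).extremePoints ℝ,
        ∃ k, k ≤ {r | b₂ r < (A₂ *ᵥ u) r}.ncard ∧ CircuitWalk A₁ b₁ A₂ b₂ k u v) ∧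
      ∀ u ∈ (Poly A₁ b₁ A₂ b₂).extremePoints ℝ, ∀ v ∈ (Poly A₁ b₁ A₂ b₂).extremePoints ℝ,
        ∃ k, k + finrank ℝ (vectorSpan ℝ (Poly A₁ b₁ A₂ b₂)) ≤ Fintype.card κ₂ ∧
          CircuitWalk A₁ b₁ A₂ b₂ k u v := by
  choose t₁ p₁ q₁ ht₁ hA₁ using h₁
  choose t₂ p₂ q₂ ht₂ hA₂ using h₂
  refine ⟨fun u hu v hv => exists_walk_to_vertex ht₁ ht₂ hA₁ hA₂ hu hv, fun u hu v hv => ?_⟩
  obtain ⟨k, hk, hwalk⟩ := exists_walk_to_vertex ht₁ ht₂ hA₁ hA₂ (mem_extremePoints.mp hu).1 hv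
  exact ⟨k, by have := finrank_le_tight hu; omega, hwalk⟩

end Pool.Agent.Results.MP_a41ee4_co.NetworkHirsch
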