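import Pool.Agent.Helper4.CD.M_FIN2
import Pool.Agent.Helper4.CD.M_TPB
import Pool.Agent.Helper4.CD.M_LIFTB
import Pool.Agent.Helper4.CD.M_PRAB
import Pool.Agent.Helper9.CD.M_TR
import Pool.Agent.Helper21.CD.M_AVO
import Pool.Agent.Helper29.CD.M_PROP
import Pool.Agent.Helper37.CD.M_LAM
import Pool.Agent.Helper33.CD.M_GEN
import Pool.Agent.Helper2.CD.M_PM
import Pool.Agent.Helper2.CD.M_BAS
import Pool.Agent.Helper96.CD.M_CL
import Pool.Agent.Helper94.CD.M_LIM
import Pool.Agent.Helper41.CD.M_PRBB

/-!
# MP_a41ee4_co : a strong d-step theorem for circuit walks

Let `K` be an ordered field (for instance `ℚ` or `ℝ`). The following statements are equivalent.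

1. (`AsymDStepB`) For every `m` there is some `D ≥ m` such that in every bounded `D`-dimensional polyhedron with
   `2 D` facets, `D` of them through a vertex `u` and the other `D` through a vertex `v`, there is a circuit walk from
   `u` to `v` of length at most `(1 + 1/m) D`.
2. (`DStepB`) For all `D`, with the bound `D` (bounded polyhedra).
3. (`DStep`) For all `D`, with the bound `D`, bounded or not: this is the circuit d-step conjecture in its
   complementary form.
4. (`NearBound`) For every polyhedron in `K^d` (bounded or not, any number of inequalities, possibly degenerate or
   redundant), every vertex `v` and every point `u` which lies on no facet through `v` and has smaller slack than `v`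
   in every other inequality (for instance the apices of a spindle with any number of facets), there is a circuit walk
   from `u` to `v` of length at most `d` in which every step enters a facet through `v` that is never left afterwards;
   no point of the walk is farther than `u` from a facet through `v` or has smaller slack than `u` in another
   inequality.

So the circuit d-step bound for polytopes, even asymptotically and for infinitely many dimensions only, gives the bound
for unbounded polyhedra; the analogue of Santos' strong d-step theorem holds for circuit walks; and the d-step
conjecture implies its non-revisiting form.

Idea of the proof. (a) Rank argument. For fixed forms and generic right-hand sides the end point of a walk is a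
linear function of the right-hand sides; so a walk between complementary vertices has at least `D` steps, and if it has
exactly `D` steps then the blocking rows are the rows of `v`, and the `i`-th blocking row vanishes on all later
directions (dual basis). (b) Instead of wedges: multiply the polyhedron by two simplices and tilt the superfluous rows
at `u` and at `v` by `ε` times a coordinate. This makes both vertices simple. A circuit of the lifted system is either
a circuit of the base or it moves the base point by `O(ε)`. By (a) at most `d` steps of a walk of the lifted
polyhedron are of the first kind, and the limit `ε → 0` is a walk of the base of the required form. (c) The walks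
obtained are only blocked by facets through `v`. So one may add inequalities which are tight at `u` and parallel to
rows tight at `v` (this does not change the circuits, and makes the polyhedron bounded). (d) Products.
-/

set_option autoImplicit false

namespace Pool.Agent.Results.MP_a41ee4_co.StrongDStep

open Pool.Agent.Helper4.CD

/-- The main implication for bounded spindles. -/
theorem coreB : StCOREB :=
  hCOREB Pool.Agent.Helper9.CD.hTR Pool.Agent.Helper21.CD.hAVO
    (Pool.Agent.Helper33.CD.hGEN (Pool.Agent.Helper37.CD.hLAM Pool.Agent.Helper29.CD.hPROP))
    (Pool.Agent.Helper94.CD.hLIM Pool.Agent.Helper96.CD.hCL Pool.Agent.Helper29.CD.hPROP Pool.Agent.Helper2.CD.hPM)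
    (Pool.Agent.Helper4.CDLIFTB.hLIFTB Pool.Agent.Helper2.CD.hBAS) Pool.Agent.Helper4.CDTPB.hTPB

/-- The circuit d-step bound for bounded polyhedra, even asymptotically, is equivalent to the circuit d-step bound for
all polyhedra and to a strong non-revisiting form for arbitrary polyhedra. -/
theorem result (K : Type) [Field K] [LinearOrder K] [IsStrictOrderedRing K] :
    List.TFAE [AsymDStepB K, DStepB K, DStep K, NearBound K] :=
  hMAIN coreB (Pool.Agent.Helper41.CD.hPRBB Pool.Agent.Helper4.CDPRAB.hPRAB) K

end Pool.Agent.Results.MP_a41ee4_co.StrongDStep
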