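import Pool.Agent.Helper57.Circ

/-!
Edge paths of a truncation of an unbounded polyhedron through the truncating facet can be replaced
by shorter circuit walks; non-revisiting edge paths give circuit walks satisfying the Hirsch bound.
-/

set_option autoImplicit false

open Module Pool.Agent.Helper57.Circ

namespace Pool.Agent.Results.MP_a41ee4_co.ViaInfinity

/-- Let `P = {x | b k ≤ a k x}` be a polyhedron given by `f = Fintype.card ι` inequalities in a
real vector space of dimension `d`, and let `c`, `β` be such that all vertices `x` of `P`
satisfy `c x < β`. Let `w 0, ..., w L` be an edge path of the truncated polyhedron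
`P ∩ {x | c x ≤ β}` between two vertices of `P`. Then there is a circuit walk of `P` from `w 0` to
`w L` whose length `n` is at most `L`, at most `L - 1` if the path meets the truncating facet, and
at most `f - d` if the path is non-revisiting in the truncated polyhedron (which has `f + 1`
inequalities). -/
theorem result {V : Type} [AddCommGroup V] [Module ℝ V] [FiniteDimensional ℝ V] {ι : Type}
    [Fintype ι] (a : ι → Dual ℝ V) (b : ι → ℝ) (c : Dual ℝ V) (β : ℝ)
    (hβ : ∀ x, IsVertex a b x → c x < β) (L : ℕ) (w : ℕ → V)
    (h0 : IsVertex a b (w 0)) (hL : IsVertex a b (w L))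
    (hpath : EdgePath (truncA a c) (truncB b β) L w) :
    ∃ n, CircuitWalk a b n (w 0) (w L) ∧ n ≤ L ∧ ((∃ j ≤ L, c (w j) = β) → n + 1 ≤ L) ∧
      (NonRevisiting (truncA a c) (truncB b β) L w → n + finrank ℝ V ≤ Fintype.card ι) :=
  via_infinity hβ h0 hL hpath

end Pool.Agent.Results.MP_a41ee4_co.ViaInfinity
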